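import Pool.Agent.Helper57.KE.St

/-!
# Project KE, module PT: the pointwise inequality for the test function
-/

set_option autoImplicit false

namespace Pool.Agent.Helper63.KE

open Pool.Agent.Helper57.KE

private theorem bern {p x : ℝ} (hp1 : p ≤ 1) (hx : x < 1) :
    1 - p * x - (1 - p) * x ^ 2 ≤ (1 - x) ^ p := by
  have h0 : 0 < 1 - x := by linarith
  have h1 : (1 - x) ^ p = (1 - x) * (1 - x) ^ (p - 1) := by
    have h := Real.rpow_add h0 1 (p - 1)
    rw [Real.rpow_one] at h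
    rw [← h]
    congr 1
    ring
  have h2 : 1 + (1 - p) * x ≤ (1 - x) ^ (p - 1) := by
    rw [Real.rpow_def_of_pos h0]
    have h3 := Real.add_one_le_exp (Real.log (1 - x) * (p - 1))
    have h4 := Real.log_le_sub_one_of_pos h0
    nlinarith [mul_nonneg (sub_nonneg.2 hp1) (sub_nonneg.2 h4)]
  have h3 : (1 - x) * (1 + (1 - p) * x) ≤ (1 - x) * (1 - x) ^ (p - 1) :=
    mul_le_mul_of_nonneg_left h2 h0.le
  rw [h1]
  calc 1 - p * x - (1 - p) * x ^ 2 = (1 - x) * (1 + (1 - p) * x) := by ring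
    _ ≤ _ := h3

private theorem gg_pos (p σ : ℝ) (i : ℕ) : 0 < gg p σ i := by
  unfold gg
  have : (0 : ℝ) < (i : ℝ) + 1 := by positivity
  exact mul_pos (Real.rpow_pos_of_pos this _) (Real.exp_pos _)

/-- Both bounds for the shifted test function. -/
private theorem sh_bounds {p σ : ℝ} (hp0 : 0 ≤ p) (hp1 : p ≤ 1) (hσ : 0 ≤ σ) (i : ℕ) :
    gg p σ i * ((1 - p * (1 / ((i : ℝ) + 1)) - (1 - p) * (1 / ((i : ℝ) + 1)) ^ 2) * (1 + σ)) ≤
      sh (gg p σ) i ∧ sh (gg p σ) i ≤ gg p σ i * Real.exp σ := by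
  have hg := gg_pos p σ i
  rcases Nat.eq_zero_or_pos i with h | h
  · subst h
    have h0 : sh (gg p σ) 0 = 0 := if_pos rfl
    rw [h0]
    refine ⟨?_, (mul_pos hg (Real.exp_pos _)).le⟩
    have e : (1 - p * (1 / (((0 : ℕ) : ℝ) + 1)) - (1 - p) * (1 / (((0 : ℕ) : ℝ) + 1)) ^ 2) = 0 := by
      push_cast
      ring
    rw [e, zero_mul, mul_zero]
  · have h0 : sh (gg p σ) i = gg p σ (i - 1) := if_neg h.ne'
    have hk : (0 : ℝ) < (i : ℝ) + 1 := by positivity
    have hi : ((i - 1 : ℕ) : ℝ) + 1 = (i : ℝ) := by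
      have : ((i - 1 : ℕ) : ℝ) = (i : ℝ) - 1 := by
        rw [Nat.cast_sub h]
        push_cast
        rfl
      rw [this]
      ring
    have hi0 : (0 : ℝ) < (i : ℝ) := by exact_mod_cast h
    set x : ℝ := 1 / ((i : ℝ) + 1) with hx
    have hx0 : 0 < x := by positivity
    have hx1 : x < 1 := by
      rw [hx, div_lt_one hk]
      linarith
    have e1 : (i : ℝ) = ((i : ℝ) + 1) * (1 - x) := by
      rw [hx]
      field_simp
      ring
    have e2 : gg p σ (i - 1) = gg p σ i * ((1 - x) ^ p * Real.exp σ) := by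
      unfold gg
      rw [hi]
      have e3 : (i : ℝ) ^ p = ((i : ℝ) + 1) ^ p * (1 - x) ^ p := by
        rw [← Real.mul_rpow hk.le (by linarith), ← e1]
      have e4 : Real.exp (-(σ * (i : ℝ))) = Real.exp (-(σ * ((i : ℝ) + 1))) * Real.exp σ := by
        rw [← Real.exp_add]
        congr 1
        ring
      rw [e3, e4]
      ring
    rw [h0, e2]
    have h1 := bern hp1 hx1
    have h2 := Real.add_one_le_exp σ
    have h3 : (0 : ℝ) ≤ 1 - p * x - (1 - p) * x ^ 2 := by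
      have : 1 - p * x - (1 - p) * x ^ 2 = (1 - x) * (1 + (1 - p) * x) := by ring
      rw [this]
      exact mul_nonneg (by linarith) (by nlinarith [mul_nonneg (sub_nonneg.2 hp1) hx0.le])
    constructor
    · refine mul_le_mul_of_nonneg_left ?_ hg.le
      exact mul_le_mul h1 (by linarith) (by linarith) (h3.trans h1)
    · refine mul_le_mul_of_nonneg_left ?_ hg.le
      have h4 : (1 - x) ^ p ≤ 1 := Real.rpow_le_one (by linarith) (by linarith) hp0
      calc (1 - x) ^ p * Real.exp σ ≤ 1 * Real.exp σ :=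
            mul_le_mul_of_nonneg_right h4 (Real.exp_pos _).le
        _ = Real.exp σ := one_mul _

/-- The algebraic part. -/
private theorem alg {s σ k : ℝ} (hs0 : 0 < s) (hs1 : s < 1) (hσ : 0 < σ) (hk : 1 ≤ k) :
    2 * s / (1 - s) * (k ^ 2 * (σ ^ 2 + 2 * (σ / s) *
        ((1 - s) / (1 + s) * (1 / k) - σ + ((1 - (1 - s) / (1 + s)) * (1 / k) ^ 2 +
          σ * ((1 - s) / (1 + s) * (1 / k) + (1 - (1 - s) / (1 + s)) * (1 / k) ^ 2))) +
        ((1 - s) / (1 + s) * (1 / k) - σ + ((1 - (1 - s) / (1 + s)) * (1 / k) ^ 2 +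
          σ * ((1 - s) / (1 + s) * (1 / k) + (1 - (1 - s) / (1 + s)) * (1 / k) ^ 2))) ^ 2)) ≤
      (1 - s) / (1 + s) * (1 - (1 - s) / (1 + s)) + 4 * ((1 - s) / (1 + s)) * (σ * k) -
        4 * (σ * k) ^ 2 + 6 * s / (1 - s) * (1 + σ * k) * (σ / s + 1 / k) := by
  have hk0 : 0 < k := by linarith
  have h1s : 0 < 1 - s := by linarith
  set p : ℝ := (1 - s) / (1 + s) with hp
  have hp0 : 0 < p := by positivity
  have hp1 : p < 1 := by
    rw [hp, div_lt_one (by linarith)]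
    linarith
  set x : ℝ := 1 / k with hx
  have hx0 : 0 < x := by positivity
  have hx1 : x ≤ 1 := by
    rw [hx, div_le_one hk0]
    exact hk
  set u : ℝ := σ / s with hu
  have hu0 : 0 < u := by positivity
  set e : ℝ := (1 - p) * x ^ 2 + σ * (p * x + (1 - p) * x ^ 2) with he
  have hxx : x ^ 2 ≤ x := by nlinarith
  have hq : 0 ≤ p * x + (1 - p) * x ^ 2 := by
    have := mul_nonneg (sub_nonneg.2 hp1.le) (sq_nonneg x)
    have := mul_pos hp0 hx0
    linarith
  have hq1 : p * x + (1 - p) * x ^ 2 ≤ 1 := by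
    have h1 : (1 - p) * x ^ 2 ≤ (1 - p) * 1 :=
      mul_le_mul_of_nonneg_left (hxx.trans hx1) (by linarith)
    have h2 : p * x ≤ p * 1 := mul_le_mul_of_nonneg_left hx1 hp0.le
    linarith
  have he0 : 0 ≤ e := by
    have h1 := mul_nonneg (sub_nonneg.2 hp1.le) (sq_nonneg x)
    have h2 := mul_nonneg hσ.le hq
    linarith
  have hkx : k * x = 1 := by
    rw [hx]
    field_simp
  have hke : k ^ 2 * e ≤ 1 + σ * k := by
    have e1 : k ^ 2 * e = (1 - p) * (k * x) ^ 2 + σ * (p * k * (k * x) + (1 - p) * (k * x) ^ 2) := by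
      rw [he]
      ring
    rw [e1, hkx]
    have h1 : σ ≤ σ * k := by nlinarith
    have h2 : (1 - p) * σ ≤ (1 - p) * (σ * k) := mul_le_mul_of_nonneg_left h1 (by linarith)
    nlinarith
  have hed : 2 * u + 2 * (p * x - σ) + e ≤ 3 * (u + x) := by
    have h1 : e ≤ (1 - p) * x + σ * 1 := by
      have h2 : (1 - p) * x ^ 2 ≤ (1 - p) * x := mul_le_mul_of_nonneg_left hxx (by linarith)
      have h3 : σ * (p * x + (1 - p) * x ^ 2) ≤ σ * 1 := mul_le_mul_of_nonneg_left hq1 hσ.le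
      linarith
    have h2 : p * x ≤ x := by nlinarith
    have h3 : (1 - p) * x ≤ x := by nlinarith
    linarith
  have hE : k ^ 2 * e * (2 * u + 2 * (p * x - σ) + e) ≤ (1 + σ * k) * (3 * (u + x)) := by
    have h1 : k ^ 2 * e * (2 * u + 2 * (p * x - σ) + e) ≤ k ^ 2 * e * (3 * (u + x)) :=
      mul_le_mul_of_nonneg_left hed (by positivity)
    have h2 : k ^ 2 * e * (3 * (u + x)) ≤ (1 + σ * k) * (3 * (u + x)) :=
      mul_le_mul_of_nonneg_right hke (by positivity)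
    exact h1.trans h2
  have hid : 2 * s / (1 - s) * (k ^ 2 * (σ ^ 2 + 2 * u * (p * x - σ) + (p * x - σ) ^ 2)) =
      p * (1 - p) + 4 * p * (σ * k) - 4 * (σ * k) ^ 2 := by
    rw [hu, hp, hx]
    field_simp
    ring
  have ha : 0 < 2 * s / (1 - s) := by positivity
  have h3 := mul_le_mul_of_nonneg_left hE ha.le
  have e6 : 6 * s / (1 - s) * (1 + σ * k) * (u + x) =
      2 * s / (1 - s) * ((1 + σ * k) * (3 * (u + x))) := by ring
  rw [e6, ← hid]
  calc _ = 2 * s / (1 - s) * (k ^ 2 * (σ ^ 2 + 2 * u * (p * x - σ) + (p * x - σ) ^ 2)) +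
        2 * s / (1 - s) * (k ^ 2 * e * (2 * u + 2 * (p * x - σ) + e)) := by ring
    _ ≤ _ := by linarith

/-- **Module PT.** -/
theorem hPT : StPT := by
  intro s σ i hs0 hs1 hσ hσs hσ1
  have h1s : 0 < 1 - s := by linarith
  have hk1 : (1 : ℝ) ≤ (i : ℝ) + 1 := by
    have : (0 : ℝ) ≤ (i : ℝ) := Nat.cast_nonneg i
    linarith
  have hk0 : (0 : ℝ) < (i : ℝ) + 1 := by linarith
  have halg := alg hs0 hs1 hσ hk1
  set p : ℝ := (1 - s) / (1 + s) with hp
  have hp0 : 0 < p := by positivity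
  have hp1 : p < 1 := by
    rw [hp, div_lt_one (by linarith)]
    linarith
  obtain ⟨hA, hB⟩ := sh_bounds hp0.le hp1.le hσ.le i
  have hg := gg_pos p σ i
  -- the square of the test function
  have hW : gg p σ i ^ 2 = ((i : ℝ) + 1) ^ (2 * p - 2) *
      Real.exp (-(2 * (σ * ((i : ℝ) + 1)))) * ((i : ℝ) + 1) ^ 2 := by
    unfold gg
    rw [mul_pow]
    have e1 : (((i : ℝ) + 1) ^ p) ^ 2 = ((i : ℝ) + 1) ^ (2 * p - 2) * ((i : ℝ) + 1) ^ 2 := by
      rw [← Real.rpow_natCast (((i : ℝ) + 1) ^ p) 2, ← Real.rpow_mul hk0.le,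
        ← Real.rpow_natCast ((i : ℝ) + 1) 2, ← Real.rpow_add hk0]
      congr 1
      push_cast
      ring
    have e2 : Real.exp (-(σ * ((i : ℝ) + 1))) ^ 2 = Real.exp (-(2 * (σ * ((i : ℝ) + 1)))) := by
      rw [← Real.exp_nat_mul]
      congr 1
      push_cast
      ring
    rw [e1, e2]
    ring
  have hexp : Real.exp σ ≤ 1 + σ / s := by
    have hσa : |σ| ≤ 1 := by
      rw [abs_of_pos hσ]
      linarith
    have h1 := (abs_le.1 (Real.abs_exp_sub_one_sub_id_le hσa)).2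
    have h2 : σ + σ ^ 2 ≤ σ / s := by
      rw [le_div_iff₀ hs0]
      rw [le_div_iff₀ hs0] at hσ1
      nlinarith [mul_nonneg hσ.le (sub_nonneg.2 hσ1)]
    linarith
  set g : ℝ := gg p σ i with hgdef
  set G : ℝ := sh (gg p σ) i with hGdef
  set k : ℝ := (i : ℝ) + 1 with hkdef
  set x : ℝ := 1 / k with hxdef
  set u : ℝ := σ / s with hu
  have hu0 : 0 < u := by positivity
  set d : ℝ := p * x - σ + ((1 - p) * x ^ 2 + σ * (p * x + (1 - p) * x ^ 2)) with hd
  have hA' : g - G ≤ g * d := by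
    have e : g * ((1 - p * x - (1 - p) * x ^ 2) * (1 + σ)) = g - g * d := by
      rw [hd]
      ring
    linarith
  have hB' : -(g * u) ≤ g - G := by
    have h1 : g * Real.exp σ ≤ g * (1 + u) := mul_le_mul_of_nonneg_left hexp hg.le
    linarith
  have hC : σ ^ 2 * g ^ 2 + 2 * u * g * (g - G) + (g - G) ^ 2 ≤
      g ^ 2 * (σ ^ 2 + 2 * u * d + d ^ 2) := by
    have h1 : 0 ≤ (g * d - (g - G)) * (2 * (g * u) + (g - G) + g * d) :=
      mul_nonneg (by linarith) (by linarith)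
    nlinarith
  have ha : 0 < 2 * s / (1 - s) := by positivity
  have hpos : 0 < k ^ (2 * p - 2) * Real.exp (-(2 * (σ * k))) :=
    mul_pos (Real.rpow_pos_of_pos hk0 _) (Real.exp_pos _)
  calc 2 * s / (1 - s) * (σ ^ 2 * g ^ 2 + 2 * u * g * (g - G) + (g - G) ^ 2)
      ≤ 2 * s / (1 - s) * (g ^ 2 * (σ ^ 2 + 2 * u * d + d ^ 2)) :=
        mul_le_mul_of_nonneg_left hC ha.le
    _ = k ^ (2 * p - 2) * Real.exp (-(2 * (σ * k))) *
        (2 * s / (1 - s) * (k ^ 2 * (σ ^ 2 + 2 * u * d + d ^ 2))) := by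
        rw [hW]
        ring
    _ ≤ _ := mul_le_mul_of_nonneg_left halg hpos.le

end Pool.Agent.Helper63.KE
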